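import Pool.Agent.Run7.h894.LK.Stm
import Pool.Agent.Run7.h894.LK.LTV
import Pool.Agent.Run7.h892.LK.Cst
import Pool.Agent.Run7.h646.LK.CUT
import Pool.Agent.Run7.h646.LK.LOGK
import Pool.Agent.Run7.h13.LK.CYL
import Pool.Agent.Run7.h13.LK.LAR
import Pool.Agent.Run7.h593.LK.EIG
import Pool.Agent.Run7.h593.LK.YOU
import Pool.Agent.Run7.h361.LK.FIN
import Pool.Agent.Run7.h141.LK.GRC
import Pool.Agent.Run7.h889.LK.HDY
import Pool.Agent.Run7.h136.LK.KINM
import Pool.Agent.Run7.h136.LK.KINP
import Pool.Agent.Run7.h136.LK.DUALM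
import Pool.Agent.Run7.h180.LK.KINY
import Pool.Agent.Run7.h437.LK.MEIG
import Pool.Agent.Run7.h744.LK.POL
import Pool.Agent.N537.RS.LA
import Pool.Agent.N537.RS.Int
import Pool.Agent.N537.RS.Inert
import Pool.Agent.N537.RS.Meas
import Pool.Agent.N537.RS.Cell
import Pool.Agent.N537.RS.Tau
import Pool.Agent.N537.RS.Cst2
import Pool.Agent.N537.RS.Hardy
import Pool.Agent.N537.RS.HDim
import Pool.Agent.N537.RS.HRot
import Pool.Agent.N537.RS.HSh

/-!
# The Lieb-Thirring kinetic inequality with the semiclassical constant for systems which are closed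
# shells in six or more of the variables and arbitrary in the others

Write `ℝ^d = ℝ^k × ℝ^m`, `k ≥ 6`, `m ≥ 0`, with the points `(x, y)`. We prove the kinetic inequality
with the conjectured constant `K_d^cl` for all orthonormal systems of the functions
`u_{l,n,j}(x, y) = G_{l,n}(|x|, y) P_{l,j}(x)`, where for every angular momentum `l` (in a finite set)
the `P_{l,j}` are a full multiplet of harmonic polynomials of degree `l` on `ℝ^k`, and the functions
`G_{l,n}` of `|x|` and of `y ∈ ℝ^m` are arbitrary. In other words, the density matrices commute with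
the rotations of `k` of the variables; nothing is assumed about the dependence on the others. For
`m = 0` this is the theorem of the starting file `AllClosedShells`.

Proof. (1) In the variable `t = log |x|` one has functions `φ_i(t, y)`, orthonormal with the weight
`exp (2 t)` within each angular momentum, and the kinetic energy is
`∑ g_i ∫ (|∂_t φ_i|² + ν_i² |φ_i|² + exp (2 t) |∇_y φ_i|²)`, `ν_i = l_i + (k - 2) / 2`.
(2) Matrix valued kinetic inequality on the line (`S_KINM`): let `R(t)`, `Q(t)` be the Gram matrices of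
the slices `φ_i(t, ·)` and `∂_t φ_i(t, ·)`, and `B(t)` the matrix `√g_i √g_j R_ij(t)`; then
`Kp ∫ exp (4 t / k) tr B^(1 + 2 / k) ≤ ∑ g_i ∫ (Q_ii + ν_i² R_ii)`. It is proved by duality: for the
matrix valued potential `exp (2 t) c B^(2/k)`-like in the space of the slices one counts the negative
eigenvalues of `-∂_t² + ν² - exp (2 t) (V - τ)` for all `τ > 0` and all `ν = ν_l`; the sum over `l` is
compared with an integral as in `AllClosedShells` (Hermite and Hadamard, `k ≥ 6`), and the resulting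
moment of order `(k - 1) / 2 ≥ 3 / 2` is bounded by the sharp Lieb-Thirring inequality for matrix valued
potentials on the line, which is obtained from the calibration `LTd.blockC` of the starting files
(Laptev-Weidl in the dual form), for the compression to a finite dimensional space (`S_LTV`).
(3) For every `t` the semiclassical inequality `LTd.T_all` in `ℝ^m` for the exponent `k / 2 + 1` bounds
`exp (2 t) ∫ |∇_y φ|² + Kp exp (4 t / k) tr B^(1 + 2 / k)` below by the integral over `y` of the power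
`1 + 2 / d` of the density; the constants multiply to `K_d^cl`.

Authors: helper894 (statements, proof, LTV, assembly), helper136 (DUALM, KINP, KINM), helper593 (JEN,
YOU, EIG, LAR1), helper892 (constants, CHO), helper437 (measurable eigenvalues and powers), helper13
(LAR, cylindrical coordinates), helper646 (cut-off, complex functions), helper180 (KINY), helper889
(Hardy), helper141 (gradient), helper744 (POL), helper361 (FIN).
-/

open MeasureTheory Filter Topology

namespace Pool.Agent.Results.MP_cfe56d_mp.PartialShells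

open Pool.Agent.N537.RS Pool.Agent.Run7.H894.LK

/-- The space `ℝ^k × ℝ^m` with the Lebesgue measure. -/
abbrev Space (k m : ℕ) : Type := EuclideanSpace ℝ (Fin k) × (Fin m → ℝ)

/-- `|∇u|²`: the sum of the squares of the absolute values of the `k + m` partial derivatives. -/
noncomputable def grad2 {k m : ℕ} (u : Space k m → ℂ) (p : Space k m) : ℝ :=
  (∑ i : Fin k, ‖fderiv ℝ u p (EuclideanSpace.single i 1, 0)‖ ^ 2) +
    ∑ j : Fin m, ‖fderiv ℝ u p (0, Pi.single j 1)‖ ^ 2

/-- The semiclassical constant `d / (d + 2) * (2π)² / ω_d ^ (2 / d)`. -/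
noncomputable def Kcl (d : ℕ) : ℝ :=
  d / (d + 2) * ((2 * Real.pi) ^ 2 /
    (volume (Metric.ball (0 : EuclideanSpace ℝ (Fin d)) 1)).toReal ^ ((2 : ℝ) / d))

/-- the number of linearly independent spherical harmonics of degree `l` on `ℝ^k` -/
def harmonics (k l : ℕ) : ℕ := (l + k - 1).choose (k - 1) - (l + k - 3).choose (k - 1)

/-- A multiplet of angular momentum `l` on `ℝ^k`: real functions which are continuously differentiable
and homogeneous of degree `l` (Euler's relation), with `∑ P_j² = |x|^(2l)` and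
`∑ |∇P_j|² = l (2 l + k - 2) |x|^(2l-2)`. -/
structure Multiplet {k g : ℕ} (l : ℕ) (P : Fin g → EuclideanSpace ℝ (Fin k) → ℝ) : Prop where
  smooth : ∀ j, ContDiff ℝ 1 (P j)
  euler : ∀ j x, fderiv ℝ (P j) x x = l * P j x
  square : ∀ x, ∑ j, P j x ^ 2 = ‖x‖ ^ (2 * l)
  gradient : ∀ x, ∑ j, ∑ i, fderiv ℝ (P j) x (EuclideanSpace.single i 1) ^ 2 =
    l * (2 * l + k - 2) * ‖x‖ ^ (2 * l - 2)

/-- An orthonormal system, with finite kinetic energy, of the functions
`u_{n,j}(x, y) = G_n(|x|, y) P_j(x)`, where the functions `G_n(r, y)` are continuously differentiable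
for `r > 0`. -/
structure System {k m g N : ℕ} (P : Fin g → EuclideanSpace ℝ (Fin k) → ℝ)
    (u : Fin N → Fin g → Space k m → ℂ) : Prop where
  form : ∃ G : Fin N → ℝ × (Fin m → ℝ) → ℂ, (∀ n, ContDiffOn ℝ 1 (G n) {z | 0 < z.1}) ∧
    ∀ n j p, u n j p = G n (‖p.1‖, p.2) * P j p.1
  square : ∀ n j, Integrable (fun p => ‖u n j p‖ ^ 2)
  energy : ∀ n j, Integrable (grad2 (u n j))
  orthonormal : ∀ n n' i j, ∫ p, star (u n i p) * u n' j p =
    if n = n' ∧ i = j then (1 : ℂ) else 0

/-- `ρ = ∑ |u|²` -/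
noncomputable def density {k m : ℕ} (Λ : Finset ℕ) (g N : ℕ → ℕ)
    (u : ∀ l, Fin (N l) → Fin (g l) → Space k m → ℂ) (p : Space k m) : ℝ :=
  ∑ l ∈ Λ, ∑ n, ∑ j, ‖u l n j p‖ ^ 2

/-- The kinetic energy `∑ ∫ |∇u|²`. -/
noncomputable def kinetic {k m : ℕ} (Λ : Finset ℕ) (g N : ℕ → ℕ)
    (u : ∀ l, Fin (N l) → Fin (g l) → Space k m → ℂ) : ℝ :=
  ∑ l ∈ Λ, ∑ n, ∑ j, ∫ p, grad2 (u l n j) p

theorem final : S_FINAL := by
  have hLA : S_LA := LA.t_LA (IT.t_INT IN.t_INERT) (ME.t_MEAS IN.t_INERT) CE.t_CELL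
  have hLAR : S_LAR := Pool.Agent.Run7.h13.LK.t_LAR
    (Pool.Agent.Run7.h593.LK.t_LAR1 hLA Pool.Agent.Run7.h593.LK.t_EIG)
  have hLTV : S_LTV := LTVp.t_LTV Pool.Agent.Run7.h593.LK.t_JEN Pool.Agent.Run7.h593.LK.t_YOU
    Pool.Agent.Run7.h892.LK.t_CLT
  have hD : S_DUALM := Pool.Agent.Run7.H136.LK.t_DUALM hLTV hLAR Pool.Agent.Run7.h892.LK.t_CHO
  have hM : S_KINM := Pool.Agent.Run7.H136.LK.t_KINM (Pool.Agent.Run7.H136.LK.t_KINP hD
    Pool.Agent.Run7.h437.LK.t_MEIG Pool.Agent.Run7.h437.LK.t_NPW)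
  have hK : S_LOGK := Run7.h646.LK.t_LOGK (Run7.h646.LK.t_CUT (KINY.t_KINY hM))
  exact t_FIN hK (Pool.Agent.Run7.h744.LK.t_POL Pool.Agent.Run7.h13.LK.t_CYL
    Pool.Agent.Run7.H141.LK.t_GRC Run7.h889.LK.t_HDY) Pool.Agent.Run7.h13.LK.t_CYL
    Pool.Agent.Run7.h892.LK.t_CSD

/-- **The kinetic inequality with the semiclassical constant for systems which are closed shells in
`k ≥ 6` of the variables and arbitrary in the other `m`.** First part: for every `l` there is a
multiplet of angular momentum `l` on `ℝ^k` with exactly `harmonics k l` members, so that all closed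
shell systems are covered. Second part: let `Λ` be a finite set of angular momenta; for `l` in `Λ` let
`P l` be a multiplet with at most `harmonics k l` members and let `u l` be an orthonormal system of
functions `G_n(|x|, y) P_j(x)` on `ℝ^k × ℝ^m` (`System`). Then `ρ^(1 + 2/d)` is integrable and
`K_d^cl ∫ ρ^(1 + 2/d) ≤ ∑ ∫ |∇u|²`, `d = k + m`. -/
theorem result (k m : ℕ) (hk : 6 ≤ k) :
    (∀ l : ℕ, ∃ P : Fin (harmonics k l) → EuclideanSpace ℝ (Fin k) → ℝ, Multiplet l P) ∧
    ∀ (Λ : Finset ℕ) (g N : ℕ → ℕ), (∀ l ∈ Λ, g l ≤ harmonics k l) →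
      ∀ (P : ∀ l, Fin (g l) → EuclideanSpace ℝ (Fin k) → ℝ)
        (u : ∀ l, Fin (N l) → Fin (g l) → Space k m → ℂ),
      (∀ l ∈ Λ, Multiplet l (P l)) → (∀ l ∈ Λ, System (P l) (u l)) →
      Integrable (fun p => density Λ g N u p ^ (1 + 2 / ((k + m : ℕ) : ℝ))) ∧
      Kcl (k + m) * ∫ p, density Λ g N u p ^ (1 + 2 / ((k + m : ℕ) : ℝ)) ≤ kinetic Λ g N u := by
  refine ⟨fun l => ?_, fun Λ g N hg P u hP hu => ?_⟩
  · obtain ⟨P, hP⟩ := t_HSH HD.t_HDIM HR.t_HROT k (by omega) l
    exact ⟨P, hP.smooth, hP.euler, hP.square, hP.gradient⟩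
  · exact final k m hk Λ g N hg P u
      (fun l hl => ⟨(hP l hl).smooth, (hP l hl).euler, (hP l hl).square, (hP l hl).gradient⟩)
      (fun l hl => ⟨(hu l hl).form, (hu l hl).square, (hu l hl).energy, (hu l hl).orthonormal⟩)

end Pool.Agent.Results.MP_cfe56d_mp.PartialShells
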