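import Pool.Agent.Run7.h444.LTR.K

/-!
# The Lieb-Thirring kinetic inequality in the symmetry sectors of a rotation

Let `R` be the rotation by `2π / q` of the first two coordinates of `ℝ^d`, `d ≥ 2`, and let
`u_1, …, u_N ∈ H¹(ℝ^d)` be orthonormal with `u_n(R x) = ζ u_n(x)`, `ζ = e^{2πir/q} ≠ 1`,
`0 < |r| ≤ q / 2` (so `u_n` contains the angular momenta `≡ r` modulo `q`, and `|r|` is the smallest
absolute value of them). Nothing else is assumed about the functions.

* For `d = 2` the kinetic inequality holds with `3√3 r² / (4r² + 1) > 1` times the semiclassical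
  constant; `q = 2`, `r = 1` are the systems of odd functions on the plane.
* For `d = 3` and `q ≥ 3` it holds with more than the semiclassical constant.
* For `2 d ≤ 3 r²` it holds with more than the semiclassical constant.

Proof. Multiply the functions by `w_j = √P_j(φ)`, `P_j = 1 + cos(φ - φ_j)` or
`(2/3) (1 + cos(φ - φ_j))²`, `φ_j = 0, π/2, π, 3π/2`. The averages of `P_j` over the group generated
by `R` are one, so the functions `w_j u_n` are again orthonormal, and the sum over `j` of the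
integrals of `(P_j ρ)^(1 + 2/d)` is larger than `4 ∫ ρ^(1 + 2/d)` by a fixed factor. The localisation
error is estimated by the Hardy inequality `r² ∫ |u|² / |x'|² ≤ ∫ |∇u|²` in the sector, `x'` the first
two coordinates. The gain is larger than the loss and the factor `(3/4)^(1/d)` in the inequality of
the starting file `AllDimensions`, which is applied to the functions `w_j u_n`. The `w_j` are
regularized at `x' = 0`, and the Hardy inequality is proved for functions of `H¹` by integrating a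
twisted Wirtinger inequality over the orbits of the rotations.
-/

set_option autoImplicit false

open MeasureTheory

namespace Pool.Agent.Results.MP_cfe56d_mp.RotationCharacters

/-- The partial derivative `∂_k φ` of a function on `ℝ^d`. -/
noncomputable def pder {d : ℕ} (k : Fin d) (φ : (Fin d → ℝ) → ℝ) (x : Fin d → ℝ) : ℝ :=
  fderiv ℝ φ x (Pi.single k 1)

/-- `u` belongs to the Sobolev space `H¹(ℝ^d; ℂ)` and has the weak partial derivatives `g k`:
`u` and all `g k` are in `L²(ℝ^d)`, and `∫ u ∂_k φ = - ∫ g_k φ` for every real test function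
`φ ∈ C_c^∞(ℝ^d)`. -/
structure IsSobolev {d : ℕ} (u : (Fin d → ℝ) → ℂ) (g : Fin d → (Fin d → ℝ) → ℂ) : Prop where
  memLp : MemLp u 2 volume
  memLp_deriv : ∀ k, MemLp (g k) 2 volume
  weak : ∀ k (φ : (Fin d → ℝ) → ℝ), ContDiff ℝ (⊤ : ℕ∞) φ → HasCompactSupport φ →
    ∫ x, u x * (pder k φ x : ℂ) = - ∫ x, g k x * (φ x : ℂ)

/-- The density `ρ = ∑ |u_n|²`. -/
noncomputable def density {d N : ℕ} (u : Fin N → (Fin d → ℝ) → ℂ) (x : Fin d → ℝ) : ℝ :=
  ∑ n, ‖u n x‖ ^ 2

/-- The kinetic energy `∑ ∫ |∇ u_n|²`. -/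
noncomputable def kinetic {d N : ℕ} (g : Fin N → Fin d → (Fin d → ℝ) → ℂ) : ℝ :=
  ∑ n, ∑ k, ∫ x, ‖g n k x‖ ^ 2

/-- The semiclassical constant `d / (d + 2) * (2π)² / ω_d ^ (2 / d)`. -/
noncomputable def Kcl (d : ℕ) : ℝ :=
  d / (d + 2) * ((2 * Real.pi) ^ 2 /
    (volume (Metric.ball (0 : EuclideanSpace ℝ (Fin d)) 1)).toReal ^ ((2 : ℝ) / d))

/-- The rotation by the angle `θ` of the first two coordinates of `ℝ^(n+2)`. -/
noncomputable def rotate {n : ℕ} (θ : ℝ) (x : Fin (n + 2) → ℝ) : Fin (n + 2) → ℝ := fun i =>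
  if i = 0 then Real.cos θ * x 0 - Real.sin θ * x 1
  else if i = 1 then Real.sin θ * x 0 + Real.cos θ * x 1 else x i

/-- An orthonormal system in `H¹(ℝ^d)` with the weak gradients `g`. -/
structure System {d N : ℕ} (u : Fin N → (Fin d → ℝ) → ℂ)
    (g : Fin N → Fin d → (Fin d → ℝ) → ℂ) : Prop where
  sobolev : ∀ i, IsSobolev (u i) (g i)
  orthonormal : ∀ i j, ∫ x, (starRingEnd ℂ) (u i x) * u j x = if i = j then 1 else 0

/-- The kinetic inequality in dimension `n + 2` with the constant `K`, for all orthonormal systems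
with `u_i(R x) = e^{2πir/q} u_i(x)` for almost all `x`, `R` the rotation by the angle `2π / q`. -/
def SectorInequality (n q : ℕ) (r : ℤ) (K : ℝ) : Prop :=
  ∀ (N : ℕ) (u : Fin N → (Fin (n + 2) → ℝ) → ℂ)
    (g : Fin N → Fin (n + 2) → (Fin (n + 2) → ℝ) → ℂ), System u g →
    (∀ i, ∀ᵐ x, u i (rotate (2 * Real.pi / q) x) =
      Complex.exp (2 * Real.pi * Complex.I * r / q) * u i x) →
    Integrable (fun x => density u x ^ (1 + 2 / ((n + 2 : ℕ) : ℝ))) ∧
      K * ∫ x, density u x ^ (1 + 2 / ((n + 2 : ℕ) : ℝ)) ≤ kinetic g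

theorem sub_of (n q : ℕ) (r : ℤ) (K : ℝ)
    (h : ∀ (N : ℕ) (u : Fin N → (Fin (n + 2) → ℝ) → ℂ)
      (g : Fin N → Fin (n + 2) → (Fin (n + 2) → ℝ) → ℂ), (∀ i, LTd.WGradC (u i) (g i)) →
      Pool.Agent.R282.KO.SubGram u →
      (∀ i, ∀ᵐ x, u i (Run7.h444.LTR.rot (2 * Real.pi / q) x) =
        Complex.exp (2 * Real.pi * ((r / q : ℝ) : ℂ) * Complex.I) * u i x) →
      K * ∫ x, Pool.Agent.R282.KO.rho u x ^ (1 + 2 / ((n + 2 : ℕ) : ℝ)) ≤
        Pool.Agent.R282.KO.kin g) : SectorInequality n q r K := by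
  intro N u g hs he
  have hu : ∀ i, LTd.WGradC (u i) (g i) := fun i =>
    ⟨(hs.sobolev i).1, (hs.sobolev i).2, (hs.sobolev i).3⟩
  have hsub := Pool.Agent.R282.KO.sub_of_ortho u (fun i => (hu i).f2) hs.orthonormal
  refine ⟨(Pool.Agent.R282.KO.sub_thm (n + 2) (by omega) N u g hu hsub).1,
    h N u g hu hsub fun i => ?_⟩
  have e : Complex.exp (2 * Real.pi * ((r / q : ℝ) : ℂ) * Complex.I) =
      Complex.exp (2 * Real.pi * Complex.I * r / q) := by
    congr 1
    push_cast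
    ring
  rw [e]
  exact he i

theorem mono {n q : ℕ} {r : ℤ} {K K' : ℝ} (h : SectorInequality n q r K') (hK : K ≤ K') :
    SectorInequality n q r K := by
  intro N u g hs he
  obtain ⟨h1, h2⟩ := h N u g hs he
  refine ⟨h1, le_trans (mul_le_mul_of_nonneg_right hK ?_) h2⟩
  refine integral_nonneg fun x => Real.rpow_nonneg ?_ _
  exact Finset.sum_nonneg fun _ _ => by positivity

theorem Kcl_nonneg (d : ℕ) : 0 ≤ Kcl d := by
  unfold Kcl
  positivity

theorem Kcl_two : Kcl 2 = 2 * Real.pi := by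
  have hv : (volume (Metric.ball (0 : EuclideanSpace ℝ (Fin 2)) 1)).toReal = Real.pi := by
    rw [EuclideanSpace.volume_ball_fin_two]
    simp only [ENNReal.ofReal_one, one_pow, one_mul]
    exact ENNReal.toReal_ofReal Real.pi_pos.le
  unfold Kcl
  rw [hv]
  have hπ := Real.pi_pos
  have e : ((2 : ℝ) / ((2 : ℕ) : ℝ)) = 1 := by norm_num
  rw [e, Real.rpow_one]
  push_cast
  field_simp
  ring

/-- The kinetic inequality in the sectors of a rotation, `r ≠ 0` and `2 |r| ≤ q`: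
(1) in dimension two, with `3√3 r² / (4r² + 1)` times the semiclassical constant;
(2) for `q ≥ 3`, in dimension `n + 2`, with `(27/16)^(1/(n+2)) 3r² / (3r² + 1)` times the
semiclassical constant, and for `n + 2 ≤ 4` with `(625/243)^(1/(n+2)) 3r² / (3r² + 1)` times it;
(3) with the semiclassical constant in dimension two, in dimension three for `q ≥ 3`, and in the
dimensions `n + 2` with `2 (n + 2) ≤ 3 r²`;
(4) for systems of odd functions on `ℝ²`, with the constant `6√3 π / 5 > K_2^cl = 2π`. -/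
theorem result :
    (∀ (q : ℕ) (r : ℤ), r ≠ 0 → 2 * |r| ≤ q →
      SectorInequality 0 q r (3 * √3 * (r : ℝ) ^ 2 / (4 * (r : ℝ) ^ 2 + 1) * Kcl 2)) ∧
    (∀ (n q : ℕ) (r : ℤ), r ≠ 0 → 2 * |r| ≤ q → 3 ≤ q →
      SectorInequality n q r ((27 / 16) ^ (1 / ((n + 2 : ℕ) : ℝ)) *
        (3 * (r : ℝ) ^ 2 / (3 * (r : ℝ) ^ 2 + 1)) * Kcl (n + 2)) ∧
      (n ≤ 2 → SectorInequality n q r ((625 / 243) ^ (1 / ((n + 2 : ℕ) : ℝ)) *
        (3 * (r : ℝ) ^ 2 / (3 * (r : ℝ) ^ 2 + 1)) * Kcl (n + 2)))) ∧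
    (∀ (n q : ℕ) (r : ℤ), r ≠ 0 → 2 * |r| ≤ q →
      (n = 0 ∨ (n = 1 ∧ 3 ≤ q) ∨ 2 * ((n : ℤ) + 2) ≤ 3 * r ^ 2) →
      SectorInequality n q r (Kcl (n + 2))) ∧
    (∀ (N : ℕ) (u : Fin N → (Fin 2 → ℝ) → ℂ) (g : Fin N → Fin 2 → (Fin 2 → ℝ) → ℂ), System u g →
      (∀ i, ∀ᵐ x, u i (-x) = -u i x) →
      Integrable (fun x => density u x ^ 2) ∧
        6 * √3 * Real.pi / 5 * ∫ x, density u x ^ 2 ≤ kinetic g) := by
  have r1 : ∀ (q : ℕ) (r : ℤ), r ≠ 0 → 2 * |r| ≤ q →
      SectorInequality 0 q r (3 * √3 * (r : ℝ) ^ 2 / (4 * (r : ℝ) ^ 2 + 1) * Kcl 2) :=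
    fun q r hr0 hr => sub_of 0 q r _ fun N u g hu hs he =>
      Run7.h444.LTR.final1 hr0 hr u g hu hs he
  have r3 : ∀ (n q : ℕ) (r : ℤ), r ≠ 0 → 2 * |r| ≤ q → 3 ≤ q →
      SectorInequality n q r ((27 / 16) ^ (1 / ((n + 2 : ℕ) : ℝ)) *
        (3 * (r : ℝ) ^ 2 / (3 * (r : ℝ) ^ 2 + 1)) * Kcl (n + 2)) :=
    fun n q r hr0 hr hq => sub_of n q r _ fun N u g hu hs he =>
      Run7.h444.LTR.final3 hq hr0 hr u g hu hs he
  have r2 : ∀ (n q : ℕ) (r : ℤ), r ≠ 0 → 2 * |r| ≤ q → 3 ≤ q → n ≤ 2 →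
      SectorInequality n q r ((625 / 243) ^ (1 / ((n + 2 : ℕ) : ℝ)) *
        (3 * (r : ℝ) ^ 2 / (3 * (r : ℝ) ^ 2 + 1)) * Kcl (n + 2)) :=
    fun n q r hr0 hr hq hn => sub_of n q r _ fun N u g hu hs he =>
      Run7.h444.LTR.final2 hn hq hr0 hr u g hu hs he
  have hrr : ∀ r : ℤ, r ≠ 0 → (1 : ℝ) ≤ (r : ℝ) ^ 2 := by
    intro r hr0
    have : 1 ≤ r ^ 2 := by
      have := Int.one_le_abs hr0
      nlinarith [sq_abs r]
    exact_mod_cast this
  refine ⟨r1, fun n q r hr0 hr hq => ⟨r3 n q r hr0 hr hq, r2 n q r hr0 hr hq⟩, ?_, ?_⟩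
  · intro n q r hr0 hr hcase
    have h1 := hrr r hr0
    rcases hcase with hn | ⟨hn, hq⟩ | hd
    · subst hn
      refine mono (r1 q r hr0 hr) ?_
      refine le_mul_of_one_le_left (Kcl_nonneg 2) ?_
      rw [le_div_iff₀ (by positivity)]
      have h3 : (5 : ℝ) / 3 ≤ √3 := Real.le_sqrt_of_sq_le (by norm_num)
      nlinarith
    · subst hn
      refine mono (r2 1 q r hr0 hr hq (by norm_num)) ?_
      refine le_mul_of_one_le_left (Kcl_nonneg 3) ?_
      have e : (1 / ((1 + 2 : ℕ) : ℝ)) = 1 / 3 := by norm_num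
      rw [e]
      have h2 : (4 / 3 : ℝ) ≤ (625 / 243) ^ (1 / 3 : ℝ) := by
        have h4 : ((4 / 3 : ℝ) ^ (3 : ℝ)) ^ (1 / 3 : ℝ) = 4 / 3 := by
          rw [← Real.rpow_mul (by norm_num)]
          norm_num
        rw [← h4]
        refine Real.rpow_le_rpow (by positivity) ?_ (by norm_num)
        rw [show (3 : ℝ) = ((3 : ℕ) : ℝ) by norm_num, Real.rpow_natCast]
        norm_num
      have h3 : (3 / 4 : ℝ) ≤ 3 * (r : ℝ) ^ 2 / (3 * (r : ℝ) ^ 2 + 1) := by
        rw [div_le_div_iff₀ (by norm_num) (by positivity)]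
        linarith
      calc (1 : ℝ) = 4 / 3 * (3 / 4) := by norm_num
        _ ≤ _ := mul_le_mul h2 h3 (by norm_num) (by positivity)
    · have hr3 : 2 ≤ |r| := by
        by_contra hlt
        have h5 : |r| = 1 := le_antisymm (by omega) (Int.one_le_abs hr0)
        have h6 : r ^ 2 = 1 := by rw [← sq_abs, h5]; norm_num
        rw [h6] at hd
        omega
      refine mono (r3 n q r hr0 hr (by omega)) ?_
      refine le_mul_of_one_le_left (Kcl_nonneg _) ?_
      have hdR : 2 * (((n + 2 : ℕ) : ℝ)) ≤ 3 * (r : ℝ) ^ 2 := by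
        push_cast
        exact_mod_cast hd
      set d : ℝ := ((n + 2 : ℕ) : ℝ) with hddef
      have hd0 : 0 < d := by rw [hddef]; positivity
      have h7 : 1 + 1 / (2 * d) ≤ (27 / 16 : ℝ) ^ (1 / d) := by
        have h8 : 1 + 1 / (2 * d) ≤ Real.exp (1 / (2 * d)) := by
          have := Real.add_one_le_exp (1 / (2 * d))
          linarith
        refine h8.trans ?_
        have h9 : Real.exp (1 / (2 * d)) = (Real.exp (1 / 2)) ^ (1 / d) := by
          rw [← Real.exp_mul]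
          congr 1
          field_simp
        rw [h9]
        refine Real.rpow_le_rpow (Real.exp_pos _).le ?_ (by positivity)
        have h10 : Real.exp (1 / 2) ^ 2 = Real.exp 1 := by
          rw [← Real.exp_nat_mul]
          norm_num
        have h11 := Real.exp_one_lt_d9
        have h12 : Real.exp (1 / 2) ^ 2 ≤ (27 / 16) ^ 2 := by
          rw [h10]
          norm_num
          linarith
        exact le_of_sq_le_sq h12 (by norm_num)
      have h13 : 1 / (1 + 1 / (2 * d)) ≤ 3 * (r : ℝ) ^ 2 / (3 * (r : ℝ) ^ 2 + 1) := by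
        rw [div_le_div_iff₀ (by positivity) (by positivity)]
        have : 1 ≤ 3 * (r : ℝ) ^ 2 * (1 / (2 * d)) := by
          rw [mul_one_div, le_div_iff₀ (by positivity)]
          linarith
        nlinarith
      calc (1 : ℝ) = (1 + 1 / (2 * d)) * (1 / (1 + 1 / (2 * d))) := by field_simp
        _ ≤ _ := mul_le_mul h7 h13 (by positivity) (by positivity)
  · intro N u g hs hodd
    have h := r1 2 1 one_ne_zero (by norm_num) N u g hs (fun i => by
      have e1 : Complex.exp (2 * Real.pi * Complex.I * ((1 : ℤ) : ℂ) / ((2 : ℕ) : ℂ)) = -1 := by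
        rw [← Complex.exp_pi_mul_I]
        congr 1
        push_cast
        ring
      have e2 : ∀ x : Fin (0 + 2) → ℝ, rotate (2 * Real.pi / ((2 : ℕ) : ℝ)) x = -x := by
        intro x
        have e3 : 2 * Real.pi / ((2 : ℕ) : ℝ) = Real.pi := by push_cast; ring
        rw [e3]
        funext i
        unfold rotate
        fin_cases i
        · simp
        · simp
      filter_upwards [hodd i] with x hx
      rw [e1, e2, hx]
      ring)
    have e4 : (1 + 2 / ((0 + 2 : ℕ) : ℝ)) = ((2 : ℕ) : ℝ) := by norm_num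
    rw [e4] at h
    simp only [Real.rpow_natCast] at h
    rw [Kcl_two] at h
    refine ⟨h.1, le_trans (le_of_eq ?_) h.2⟩
    push_cast
    ring

end Pool.Agent.Results.MP_cfe56d_mp.RotationCharacters
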